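import Pool.Agent.H162R2.AG.Stmts

/-!
# One level of the recursion (task STEP, helper501)
-/

set_option autoImplicit false

namespace Pool.Agent.H162R2.AG

open Finset Pool.Agent.H162R2.Sparse

namespace Aux501

theorem mem_nb' {V : Type} [Fintype V] [DecidableEq V] (G : SimpleGraph V) (v w : V) :
    w ∈ nb G v ↔ G.Adj v w := by
  unfold nb
  simp

/-- the cross graph -/
def crossG {V : Type} (G : SimpleGraph V) (σ : V → Bool) : SimpleGraph V where
  Adj x y := G.Adj x y ∧ σ x ≠ σ y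
  symm := ⟨fun _ _ h => ⟨h.1.symm, h.2.symm⟩⟩
  loopless := ⟨fun x h => G.loopless.irrefl x h.1⟩

/-- the inside graph -/
def insG {V : Type} (G : SimpleGraph V) (σ : V → Bool) : SimpleGraph V where
  Adj x y := G.Adj x y ∧ σ x = σ y
  symm := ⟨fun _ _ h => ⟨h.1.symm, h.2.symm⟩⟩
  loopless := ⟨fun x h => G.loopless.irrefl x h.1⟩

theorem dg_cross {V : Type} [Fintype V] [DecidableEq V] (G : SimpleGraph V) (σ : V → Bool) (v : V) :
    ((dg (crossG G σ) v : ℕ) : ℝ) =
      ((dg G v : ℕ) - sg (σ v) * ∑ w ∈ nb G v, sg (σ w)) / 2 := by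
  classical
  have h1 : nb (crossG G σ) v = (nb G v).filter (fun w => σ v ≠ σ w) := by
    ext w
    rw [mem_nb', Finset.mem_filter, mem_nb']
    rfl
  unfold dg
  rw [h1, Finset.card_filter]
  push_cast
  rw [Finset.card_eq_sum_ones]
  push_cast
  rw [Finset.mul_sum, ← Finset.sum_sub_distrib, Finset.sum_div]
  refine Finset.sum_congr rfl fun w _ => ?_
  cases σ v <;> cases σ w <;> simp [sg] <;> norm_num

theorem dg_ins {V : Type} [Fintype V] [DecidableEq V] (G : SimpleGraph V) (σ : V → Bool) (v : V) :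
    ((dg (insG G σ) v : ℕ) : ℝ) =
      ((dg G v : ℕ) + sg (σ v) * ∑ w ∈ nb G v, sg (σ w)) / 2 := by
  classical
  have h1 : nb (insG G σ) v = (nb G v).filter (fun w => σ v = σ w) := by
    ext w
    rw [mem_nb', Finset.mem_filter, mem_nb']
    rfl
  unfold dg
  rw [h1, Finset.card_filter]
  push_cast
  rw [Finset.card_eq_sum_ones]
  push_cast
  rw [Finset.mul_sum, ← Finset.sum_add_distrib, Finset.sum_div]
  refine Finset.sum_congr rfl fun w _ => ?_
  cases σ v <;> cases σ w <;> simp [sg]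

theorem abs_sg_mul (b : Bool) (x : ℝ) : |sg b * x| = |x| := by
  rw [abs_mul, abs_sg, one_mul]

/-- sizes after the splitting of the colours -/
theorem card_P (S R : Finset ℕ) (χ : ℕ → Bool) :
    (((S.filter (fun c => c ∉ R ∧ χ c = true)).card : ℕ) : ℝ) =
      ((S.card : ℝ) - (S ∩ R).card + ∑ c ∈ S \ R, sg (χ c)) / 2 := by
  have h1 : S.filter (fun c => c ∉ R ∧ χ c = true) = (S \ R).filter (fun c => χ c = true) := by
    ext c
    simp only [Finset.mem_filter, Finset.mem_sdiff]
    tauto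
  have h2 : ((S \ R).card : ℝ) = (S.card : ℝ) - (S ∩ R).card := by
    have := Finset.card_sdiff_add_card_inter S R
    rw [← this]
    push_cast
    ring
  rw [← h2, h1, Finset.card_filter]
  push_cast
  rw [Finset.card_eq_sum_ones]
  push_cast
  rw [← Finset.sum_add_distrib, Finset.sum_div]
  refine Finset.sum_congr rfl fun c _ => ?_
  cases χ c <;> simp [sg]

theorem card_nP (S R : Finset ℕ) (χ : ℕ → Bool) :
    (((S.filter (fun c => ¬ (c ∉ R ∧ χ c = true))).card : ℕ) : ℝ) =
      ((S.card : ℝ) + (S ∩ R).card - ∑ c ∈ S \ R, sg (χ c)) / 2 := by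
  have h1 := Finset.card_filter_add_card_filter_not (s := S) (fun c => c ∉ R ∧ χ c = true)
  have h2 := card_P S R χ
  have h3 : ((S.filter (fun c => c ∉ R ∧ χ c = true)).card : ℝ) +
      ((S.filter (fun c => ¬ (c ∉ R ∧ χ c = true))).card : ℝ) = S.card := by
    exact_mod_cast h1
  linarith

theorem trunc_exists (m : ℕ) (S : Finset ℕ) : ∃ T ⊆ S, T.card = min S.card m :=
  Finset.exists_subset_card_eq (min_le_left _ _)

/-- truncation of a list, depending only on the list -/
noncomputable def tr (m : ℕ) (S : Finset ℕ) : Finset ℕ := (trunc_exists m S).choose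

theorem tr_sub (m : ℕ) (S : Finset ℕ) : tr m S ⊆ S := (trunc_exists m S).choose_spec.1

theorem tr_card (m : ℕ) (S : Finset ℕ) : (tr m S).card = min S.card m :=
  (trunc_exists m S).choose_spec.2

theorem LC_mono {V : Type} {G : SimpleGraph V} {L L' : V → V → Finset ℕ}
    (h : ∀ a b, L' a b ⊆ L a b) (hL : LC G L') : LC G L := by
  obtain ⟨f, h1, h2, h3⟩ := hL
  exact ⟨f, h1, fun a b hab => h a b (h2 a b hab), h3⟩

end Aux501

open Aux501

theorem STEP_of (hR : T_R) (hX : T_RGX) (hL : T_LR) : T_STEP := by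
  classical
  obtain ⟨C1, hC1, hR⟩ := hR
  obtain ⟨C2, hC2, hX⟩ := hX
  refine ⟨max C1 C2, le_max_of_le_left hC1, ?_⟩
  intro n hn d d₁ l a b g s f y s₁ f₁ y₁ φ ha hab hg hf hy hs₁ hd₁ hd₁n hl hAv hda hfg hyb hyd hφ
    hs hsy hCol G hdG L hLs F hFs hFc hLn hLf
  set C := max C1 C2 with hC
  have hCa : C1 ≤ C := le_max_left _ _
  have hCb : C2 ≤ C := le_max_right _ _
  have hC0 : 1 ≤ C := hC1.trans hCa
  have hn2 : (2:ℝ) ≤ n := by exact_mod_cast hn
  have hlg : 0 < Real.log n := Real.log_pos (by linarith)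
  have hd₁' : (1:ℝ) ≤ d₁ := by exact_mod_cast hd₁
  have hy₁ : 0 ≤ y₁ := by linarith
  have hf₁ : 0 ≤ f₁ := by linarith
  have hin : 0 ≤ f₁ * (y₁ + Real.log n) / d₁ + Real.log n := by positivity
  have hφ0 : 0 ≤ φ := (mul_nonneg (by linarith) hin).trans hφ
  set ν : ℝ := C * Real.sqrt ((s + 1) * Real.log n) + C * Real.log n with hν
  have hν0 : 0 < ν := by
    have h1 : 0 ≤ C * Real.sqrt ((s + 1) * Real.log n) := by positivity
    have h2 : 0 < C * Real.log n := by positivity
    linarith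
  set Ps : ℝ := s - (2 * d₁ - d) - 2 * φ - a - ν with hPs
  have hPs0 : s₁ ≤ Ps := by linarith
  have hs0 : 0 < s := by linarith
  have hPss : Ps ≤ s := by linarith
  have hd0 : (0:ℝ) ≤ d := Nat.cast_nonneg d
  have hds : 0 < (d:ℝ) + s := by linarith
  set p : ℝ := Ps / (d + s) with hp
  have hpm : p * (d + s) = Ps := div_mul_cancel₀ _ hds.ne'
  have hp0 : 0 ≤ p := div_nonneg (by linarith) hds.le
  have hp1 : p ≤ 1 := by rw [hp, div_le_one hds]; linarith
  -- truncation
  set m : ℕ := ⌈(d:ℝ) + s⌉₊ with hm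
  have hm1 : (d:ℝ) + s ≤ m := Nat.le_ceil _
  have hm2 : (m:ℝ) < d + s + 1 := Nat.ceil_lt_add_one hds.le
  set L' : Fin n → Fin n → Finset ℕ := fun v w => tr m (L v w) with hL'
  have hL's : ∀ v w, L' v w = L' w v := by
    intro v w
    simp only [hL', hLs v w]
  have hL'c : ∀ v w, ((L' v w).card : ℝ) ≤ m := by
    intro v w
    have : (L' v w).card ≤ m := by rw [hL']; simp only [tr_card]; exact min_le_right _ _
    exact_mod_cast this
  have hL'g : ∀ v w (z : ℝ), z ≤ d + s → z ≤ (L v w).card → z ≤ (L' v w).card := by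
    intro v w z h1 h2
    have : (L' v w).card = min (L v w).card m := tr_card _ _
    rw [this]
    push_cast
    exact le_min h2 (h1.trans hm1)
  refine LC_mono (L' := L') (fun v w => tr_sub _ _) ?_
  -- the reserve
  obtain ⟨R, hRR⟩ := hR n hn p hp0 hp1 L'
  have hRν : ∀ v w, |((L' v w ∩ R).card : ℝ) - p * (L' v w).card| ≤ ν := by
    intro v w
    refine (hRR v w).trans ?_
    have h1 : p * (L' v w).card ≤ s + 1 := by
      have h2 : p * (L' v w).card ≤ p * (d + s + 1) :=
        mul_le_mul_of_nonneg_left ((hL'c v w).trans hm2.le) hp0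
      have h3 : p * (d + s + 1) = Ps + p := by rw [← hpm]; ring
      linarith
    have h2 : Real.sqrt (p * (L' v w).card * Real.log n) ≤
        Real.sqrt ((s + 1) * Real.log n) :=
      Real.sqrt_le_sqrt (mul_le_mul_of_nonneg_right h1 hlg.le)
    have h3 : C1 * Real.sqrt (p * (L' v w).card * Real.log n) ≤
        C * Real.sqrt ((s + 1) * Real.log n) :=
      mul_le_mul hCa h2 (Real.sqrt_nonneg _) (by linarith)
    have h4 : C1 * Real.log n ≤ C * Real.log n := mul_le_mul_of_nonneg_right hCa hlg.le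
    linarith
  -- the splitting
  obtain ⟨σ, χ, hσ, hχ1, hχ2⟩ := hAv G hdG (fun v w => L' v w \ R) (by
    intro v w
    have h1 : ((L' v w \ R).card : ℝ) ≤ (L' v w).card := by
      exact_mod_cast Finset.card_le_card Finset.sdiff_subset
    have h2 := hL'c v w
    have h3 : ((L' v w \ R).card : ℝ) ≤ l := by linarith
    exact_mod_cast h3)
  have hdg1 : ∀ v, dg (crossG G σ) v ≤ d₁ := by
    intro v
    have h1 := dg_cross G σ v
    have h2 : |sg (σ v) * ∑ w ∈ nb G v, sg (σ w)| ≤ a := by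
      rw [abs_sg_mul]; exact hσ v
    have h3 : ((dg G v : ℕ) : ℝ) ≤ d := by exact_mod_cast hdG v
    rw [abs_le] at h2
    have h4 : ((dg (crossG G σ) v : ℕ) : ℝ) ≤ d₁ := by rw [h1]; linarith [h2.1]
    exact_mod_cast h4
  have hdg2 : ∀ v, dg (insG G σ) v ≤ d₁ := by
    intro v
    have h1 := dg_ins G σ v
    have h2 : |sg (σ v) * ∑ w ∈ nb G v, sg (σ w)| ≤ a := by
      rw [abs_sg_mul]; exact hσ v
    have h3 : ((dg G v : ℕ) : ℝ) ≤ d := by exact_mod_cast hdG v
    rw [abs_le] at h2
    have h4 : ((dg (insG G σ) v : ℕ) : ℝ) ≤ d₁ := by rw [h1]; linarith [h2.2]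
    exact_mod_cast h4
  set x : Fin n → Fin n → ℝ := fun v w => ∑ c ∈ L' v w \ R, sg (χ c) with hx
  have hxs : ∀ v w, x v w = x w v := by
    intro v w
    simp only [hx, hL's v w]
  set F' : Fin n → Fin n → Prop := fun v w => F v w ∨ a < |x v w| with hF'
  have hF's : ∀ v w, F' v w → F' w v := by
    intro v w h
    rcases h with h | h
    · exact Or.inl (hFs v w h)
    · right
      rw [hxs w v]
      exact h
  have hF'c : ∀ v, cnt (fun w => G.Adj v w ∧ F' v w) ≤ f₁ := by
    intro v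
    have h1 : cnt (fun w => G.Adj v w ∧ F' v w) ≤
        cnt (fun w => (G.Adj v w ∧ F v w) ∨ a < |x v w|) := by
      apply cnt_mono
      rintro w ⟨h1, h2 | h2⟩
      · exact Or.inl ⟨h1, h2⟩
      · exact Or.inr h2
    have h2 := cnt_or_le (fun w => G.Adj v w ∧ F v w) (fun w => a < |x v w|)
    have h3 := hFc v
    have h4 := hχ1 v
    linarith
  -- sizes
  have hlow : ∀ v w (z u : ℝ), z ≤ (L' v w).card → |x v w| ≤ u →
      ((1 - p) * z - ν - u) / 2 ≤
        (((L' v w).filter (fun c => c ∉ R ∧ χ c = true)).card : ℝ) ∧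
      ((1 + p) * z - ν - u) / 2 ≤
        (((L' v w).filter (fun c => ¬ (c ∉ R ∧ χ c = true))).card : ℝ) := by
    intro v w z u h1 h2
    have h3 := hRν v w
    rw [abs_le] at h2 h3
    rw [card_P, card_nP]
    have e1 : ∑ c ∈ L' v w \ R, sg (χ c) = x v w := rfl
    rw [e1]
    have h4 : (1 - p) * z ≤ (1 - p) * (L' v w).card :=
      mul_le_mul_of_nonneg_left h1 (by linarith)
    have h5 : (1 + p) * z ≤ (1 + p) * (L' v w).card :=
      mul_le_mul_of_nonneg_left h1 (by linarith)
    constructor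
    · linarith [h3.2, h2.1]
    · linarith [h3.1, h2.2]
  have hA1 : (1 - p) * (d + s) = 2 * d₁ + 2 * φ + a + ν := by
    have : (1 - p) * (d + s) = (d + s) - Ps := by rw [← hpm]; ring
    rw [this, hPs]; ring
  have hA2 : (1 + p) * (d + s) = 2 * Ps + 2 * d₁ + 2 * φ + a + ν := by
    have : (1 + p) * (d + s) = (d + s) + Ps := by rw [← hpm]; ring
    rw [this]
    have : s = Ps + (2 * d₁ - d) + 2 * φ + a + ν := by rw [hPs]; ring
    linarith
  have hpy : (1 + p) * y ≤ 3 / 2 * y := by
    rcases hsy with h | h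
    · have : p ≤ 1 / 2 := by
        rw [hp, div_le_iff₀ hds]
        linarith
      exact mul_le_mul_of_nonneg_right (by linarith) hy
    · rw [h]; simp
  have hpy' : (1 - p) * y ≤ y := by nlinarith
  -- the four estimates
  have est : ∀ v w, G.Adj v w →
      (¬ F' v w → (d₁:ℝ) + φ ≤ (((L' v w).filter (fun c => c ∉ R ∧ χ c = true)).card : ℝ) ∧
        (d₁:ℝ) + s₁ ≤ (((L' v w).filter (fun c => ¬ (c ∉ R ∧ χ c = true))).card : ℝ)) ∧
      (F' v w → (d₁:ℝ) + φ - y₁ ≤
          (((L' v w).filter (fun c => c ∉ R ∧ χ c = true)).card : ℝ) ∧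
        (d₁:ℝ) + s₁ - y₁ ≤
          (((L' v w).filter (fun c => ¬ (c ∉ R ∧ χ c = true))).card : ℝ)) := by
    intro v w hvw
    constructor
    · intro hF
      have h1 : ¬ F v w := fun h => hF (Or.inl h)
      have h2 : |x v w| ≤ a := by
        by_contra h
        exact hF (Or.inr (not_le.1 h))
      have h3 := hlow v w (d + s) a (hL'g v w _ le_rfl (hLn v w hvw h1)) h2
      rw [hA1, hA2] at h3
      constructor
      · linarith [h3.1]
      · linarith [h3.2]
    · intro _
      have h0 : (d:ℝ) + s - y ≤ (L v w).card := by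
        by_cases h : F v w
        · exact hLf v w hvw h
        · have := hLn v w hvw h
          linarith
      have h3 := hlow v w (d + s - y) b (hL'g v w _ (by linarith) h0) (hχ2 v w)
      have e1 : (1 - p) * (d + s - y) = (1 - p) * (d + s) - (1 - p) * y := by ring
      have e2 : (1 + p) * (d + s - y) = (1 + p) * (d + s) - (1 + p) * y := by ring
      rw [e1, e2, hA1, hA2] at h3
      constructor
      · linarith [h3.1]
      · linarith [h3.2]
  -- the two parts
  have hLC1 : LC (crossG G σ) (fun v w => (L' v w).filter (fun c => c ∉ R ∧ χ c = true)) := by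
    refine hX n hn d₁ hd₁ hd₁n (crossG G σ) σ (fun v w h => h.2) hdg1 _ ?_ F' hF's f₁ y₁ φ hy₁ hyd
      ?_ ?_ ?_ ?_
    · intro v w
      simp only [hL's v w]
    · intro v
      refine le_trans (cnt_mono ?_) (hF'c v)
      rintro w ⟨h1, h2⟩
      exact ⟨h1.1, h2⟩
    · exact (mul_le_mul_of_nonneg_right hCb hin).trans hφ
    · intro v w h1 h2
      exact ((est v w h1.1).1 h2).1
    · intro v w h1 h2
      exact ((est v w h1.1).2 h2).1
  have hLC2 : LC (insG G σ) (fun v w => (L' v w).filter (fun c => ¬ (c ∉ R ∧ χ c = true))) := by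
    refine hCol (insG G σ) hdg2 _ ?_ F' hF's ?_ ?_ ?_
    · intro v w
      simp only [hL's v w]
    · intro v
      refine le_trans (cnt_mono ?_) (hF'c v)
      rintro w ⟨h1, h2⟩
      exact ⟨h1.1, h2⟩
    · intro v w h1 h2
      exact ((est v w h1.1).1 h2).2
    · intro v w h1 h2
      exact ((est v w h1.1).2 h2).2
  refine hL (Fin n) G (crossG G σ) (insG G σ) L' (fun c => c ∉ R ∧ χ c = true) ?_ hLC1 hLC2
  intro v w h
  by_cases hs : σ v = σ w
  · exact Or.inr ⟨h, hs⟩
  · exact Or.inl ⟨h, hs⟩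

end Pool.Agent.H162R2.AG
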